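import Pool.Agent.N728.QL.Def

/-!
# Project QL, task U0: upper bound sieve in a box with divisibility conditions
-/

set_option autoImplicit false

namespace Pool.Agent.N383.QL

open Finset Pool.Agent.N728.QL

noncomputable section

/-- `u / φ(u)` -/
def W (u : ℕ) : ℝ := ∏ p ∈ u.primeFactors, (1 - 1 / (p : ℝ))⁻¹

lemma fac_pos {p : ℕ} (hp : p.Prime) : 0 < 1 - 1 / (p : ℝ) := by
  have h2 : (2 : ℝ) ≤ p := by exact_mod_cast hp.two_le
  have : 1 / (p : ℝ) < 1 := by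
    rw [div_lt_one (by linarith)]
    linarith
  linarith

lemma fac_le {p : ℕ} (_ : p.Prime) : 1 - 1 / (p : ℝ) ≤ 1 := by
  have : 0 ≤ 1 / (p : ℝ) := by positivity
  linarith

lemma fac_inv {p : ℕ} (hp : p.Prime) : 1 ≤ (1 - 1 / (p : ℝ))⁻¹ :=
  (one_le_inv₀ (fac_pos hp)).2 (fac_le hp)

lemma W_eq {u : ℕ} (hu : u ≠ 0) : W u = (u : ℝ) / Nat.totient u := by
  have h1 := Nat.totient_eq_mul_prod_factors u
  have h2 : ((Nat.totient u : ℕ) : ℝ) = (u : ℝ) * ∏ p ∈ u.primeFactors, (1 - (p : ℝ)⁻¹) := by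
    have := congrArg (fun x : ℚ => (x : ℝ)) h1
    push_cast at this
    exact this
  unfold W
  rw [prod_inv_distrib, h2]
  have h3 : ∏ p ∈ u.primeFactors, (1 - 1 / (p : ℝ)) ≠ 0 :=
    prod_ne_zero_iff.2 fun p hp => (fac_pos (Nat.prime_of_mem_primeFactors hp)).ne'
  have h4 : (u : ℝ) ≠ 0 := by exact_mod_cast hu
  simp only [one_div] at h3 ⊢
  field_simp

lemma one_le_W (u : ℕ) : 1 ≤ W u := by
  unfold W
  calc (1 : ℝ) = ∏ p ∈ u.primeFactors, (1 : ℝ) := by simp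
    _ ≤ _ := prod_le_prod (fun _ _ => zero_le_one) fun p hp =>
      fac_inv (Nat.prime_of_mem_primeFactors hp)

lemma W_mul {m n : ℕ} (hm : m ≠ 0) (hn : n ≠ 0) : W (m * n) ≤ W m * W n := by
  unfold W
  rw [Nat.primeFactors_mul hm hn, ← prod_union_inter]
  refine le_mul_of_one_le_right ?_ ?_
  · refine prod_nonneg fun p hp => ?_
    have : p.Prime := by
      rcases mem_union.1 hp with h | h <;> exact Nat.prime_of_mem_primeFactors h
    linarith [fac_inv this]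
  · calc (1 : ℝ) = ∏ p ∈ m.primeFactors ∩ n.primeFactors, (1 : ℝ) := by simp
      _ ≤ _ := prod_le_prod (fun _ _ => zero_le_one) fun p hp =>
        fac_inv (Nat.prime_of_mem_primeFactors (mem_inter.1 hp).1)

lemma VW_pos (w y : ℕ) : 0 < VW w y := prod_pos fun p hp => fac_pos (mem_filter.1 hp).2

lemma prod_mono_set {s t : Finset ℕ} {f : ℕ → ℝ} (hst : s ⊆ t) (hf : ∀ p ∈ t, 1 ≤ f p) :
    ∏ p ∈ s, f p ≤ ∏ p ∈ t, f p := by
  rw [← prod_sdiff hst]
  refine le_mul_of_one_le_left ?_ ?_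
  · exact prod_nonneg fun p hp => by linarith [hf p (hst hp)]
  · calc (1 : ℝ) = ∏ _p ∈ t \ s, (1 : ℝ) := by simp
      _ ≤ _ := prod_le_prod (fun _ _ => zero_le_one) fun p hp => hf p (mem_sdiff.1 hp).1

/-- the product over the primes which do not divide `m` -/
lemma prod_ndvd (z m : ℕ) (hm : m ≠ 0) :
    ∏ p ∈ (Ioc 0 z).filter Nat.Prime, (1 - ((if p ∣ m then 0 else 1 : ℕ) : ℝ) / p) ≤
      VW 0 z * W m := by
  set P := (Ioc 0 z).filter Nat.Prime with hP
  have h1 : ∀ p ∈ P, (1 - ((if p ∣ m then 0 else 1 : ℕ) : ℝ) / p) =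
      (1 - 1 / (p : ℝ)) * (if p ∣ m then (1 - 1 / (p : ℝ))⁻¹ else 1) := by
    intro p hp
    have := fac_pos (mem_filter.1 hp).2
    split_ifs
    · rw [mul_inv_cancel₀ this.ne']; simp
    · simp
  rw [prod_congr rfl h1, prod_mul_distrib]
  refine mul_le_mul_of_nonneg_left ?_ (VW_pos 0 z).le
  rw [← prod_filter]
  unfold W
  refine prod_mono_set ?_ fun p hp => fac_inv (Nat.prime_of_mem_primeFactors hp)
  intro p hp
  rw [mem_filter, hP, mem_filter] at hp
  exact Nat.mem_primeFactors.2 ⟨hp.1.2, hp.2, hm⟩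

open Classical in
/-- the classes -/
def Om (m : ℕ) (c : ℤ) (p : ℕ) : Finset ℕ :=
  if p.Prime ∧ ¬ p ∣ m then {(-(c : ZMod p) * (m : ZMod p)⁻¹).val} else ∅

lemma Om_sub (m : ℕ) (c : ℤ) {p : ℕ} (hp : p.Prime) : Om m c p ⊆ range p := by
  have : NeZero p := ⟨hp.ne_zero⟩
  unfold Om
  split_ifs
  · intro x hx
    rw [mem_singleton] at hx
    rw [hx, mem_range]
    exact ZMod.val_lt _
  · exact empty_subset _

lemma Om_card (m : ℕ) (c : ℤ) {p : ℕ} (hp : p.Prime) :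
    (Om m c p).card = if p ∣ m then 0 else 1 := by
  unfold Om
  by_cases h : p ∣ m
  · rw [if_neg (by tauto), if_pos h, card_empty]
  · rw [if_pos ⟨hp, h⟩, if_neg h, card_singleton]

lemma Om_dvd (m : ℕ) (c : ℤ) {p : ℕ} (hp : p.Prime) (t : ℤ) (h : (t % p).toNat ∈ Om m c p) :
    (p : ℤ) ∣ (m : ℤ) * t + c := by
  have : Fact p.Prime := ⟨hp⟩
  unfold Om at h
  by_cases h1 : p ∣ m
  · rw [if_neg (by tauto)] at h
    simp at h
  · rw [if_pos ⟨hp, h1⟩, mem_singleton] at h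
    have h2 : ((t % p).toNat : ℤ) = t % p :=
      Int.toNat_of_nonneg (Int.emod_nonneg _ (by exact_mod_cast hp.ne_zero))
    have h3 : (t : ZMod p) = -(c : ZMod p) * (m : ZMod p)⁻¹ := by
      have h4 : (((t % p).toNat : ℕ) : ZMod p) = -(c : ZMod p) * (m : ZMod p)⁻¹ := by
        rw [h, ZMod.natCast_val, ZMod.cast_id', id]
      rw [← h4, ← ZMod.intCast_mod t p, ← h2, Int.cast_natCast, Int.toNat_natCast]
    have h5 : (m : ZMod p) ≠ 0 := by
      rwa [Ne, ZMod.natCast_eq_zero_iff]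
    rw [← ZMod.intCast_zmod_eq_zero_iff_dvd]
    push_cast
    rw [h3]
    field_simp
    ring

open Classical in
/-- the sieve bound for fixed `u` -/
lemma inner {K : ℕ} (hF : ∀ (b z1 : ℕ) (Om : ℕ → Finset ℕ) (J1 J2 : ℤ), K ≤ b → 2 ≤ z1 →
      (∀ p : ℕ, p.Prime → p ≤ z1 → Om p ⊆ range p ∧ (Om p).card ≤ 8) → J1 ≤ J2 →
      |(((Ioc J1 J2).filter
          (fun t : ℤ => ∀ p : ℕ, p.Prime → p ≤ z1 → (t % p).toNat ∉ Om p)).card : ℝ) -
        ((J2 : ℝ) - J1) * ∏ p ∈ (Ioc 0 z1).filter Nat.Prime, (1 - ((Om p).card : ℝ) / p)| ≤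
      (1 / 2 : ℝ) ^ b * (((J2 : ℝ) - J1) *
        ∏ p ∈ (Ioc 0 z1).filter Nat.Prime, (1 - ((Om p).card : ℝ) / p)) +
        (z1 : ℝ) ^ (K * b)) (c : ℤ) (z m : ℕ) (hz : 2 ≤ z) (hm : m ≠ 0) (a b : ℕ)
    (hab : a ≤ b) (S : Finset ℤ)
    (hS : ∀ t ∈ S, ((a : ℤ) < t ∧ t ≤ b) ∧ Rg 0 z ((m : ℤ) * t + c)) :
    (S.card : ℝ) ≤ 2 * ((b : ℝ) - a) * (VW 0 z * W m) + (z : ℝ) ^ (K * K) := by
  have h1 := hF K z (Om m c) a b le_rfl hz (fun p hp _ => ⟨Om_sub m c hp, by
    rw [Om_card m c hp]; split_ifs <;> norm_num⟩) (by exact_mod_cast hab)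
  have h2 : ∏ p ∈ (Ioc 0 z).filter Nat.Prime, (1 - ((Om m c p).card : ℝ) / p) ≤
      VW 0 z * W m := by
    refine le_trans (le_of_eq (prod_congr rfl fun p hp => ?_)) (prod_ndvd z m hm)
    rw [Om_card m c (mem_filter.1 hp).2]
  have h3 : 0 ≤ ∏ p ∈ (Ioc 0 z).filter Nat.Prime, (1 - ((Om m c p).card : ℝ) / p) := by
    refine prod_nonneg fun p hp => ?_
    have hp' := (mem_filter.1 hp).2
    rw [Om_card m c hp']
    have := fac_pos hp'
    split_ifs
    · simp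
    · simpa using this.le
  set Pr := ∏ p ∈ (Ioc 0 z).filter Nat.Prime, (1 - ((Om m c p).card : ℝ) / p) with hPr
  have hL : (0 : ℝ) ≤ (b : ℝ) - a := by
    have : (a : ℝ) ≤ b := by exact_mod_cast hab
    linarith
  have h4 : (S.card : ℝ) ≤ (((Ioc (a : ℤ) b).filter
      (fun t : ℤ => ∀ p : ℕ, p.Prime → p ≤ z → (t % p).toNat ∉ Om m c p)).card : ℝ) := by
    exact_mod_cast card_le_card (fun t ht => by
      rw [mem_filter, mem_Ioc]
      refine ⟨(hS t ht).1, fun p hp hpz hmem => ?_⟩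
      exact (hS t ht).2 p hp hp.pos hpz (Om_dvd m c hp t hmem))
  have h5 := (abs_le.1 h1).2
  have h6 : (1 / 2 : ℝ) ^ K ≤ 1 := pow_le_one₀ (by norm_num) (by norm_num)
  have h7 : 0 ≤ ((b : ℝ) - a) * Pr := mul_nonneg hL h3
  have h8 : ((b : ℝ) - a) * Pr ≤ ((b : ℝ) - a) * (VW 0 z * W m) :=
    mul_le_mul_of_nonneg_left h2 hL
  have h9 : (1 / 2 : ℝ) ^ K * (((b : ℝ) - a) * Pr) ≤ ((b : ℝ) - a) * Pr :=
    mul_le_of_le_one_left h7 h6
  simp only [Int.cast_natCast] at h5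
  linarith

/-- number of multiples -/
lemma card_mult (a b d : ℕ) (hd : 0 < d) (hab : a ≤ b) :
    (((Ioc a b).filter (fun u => d ∣ u)).card : ℝ) ≤ ((b : ℝ) - a) / d + 1 := by
  have h1 : ((Ioc a b).filter (fun u => d ∣ u)).card ≤ (Ioc (a / d) (b / d)).card := by
    refine card_le_card_of_injOn (fun u => u / d) ?_ ?_
    · intro u hu
      rw [mem_coe, mem_filter, mem_Ioc] at hu
      obtain ⟨⟨h2, h3⟩, k, rfl⟩ := hu
      rw [mem_coe, mem_Ioc]
      dsimp only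
      rw [Nat.mul_div_cancel_left k hd]
      constructor
      · rw [Nat.div_lt_iff_lt_mul hd, mul_comm]; exact h2
      · rw [Nat.le_div_iff_mul_le hd, mul_comm]; exact h3
    · intro u hu v hv huv
      rw [mem_coe, mem_filter] at hu hv
      obtain ⟨k, rfl⟩ := hu.2
      obtain ⟨l, rfl⟩ := hv.2
      dsimp only at huv
      rw [Nat.mul_div_cancel_left k hd, Nat.mul_div_cancel_left l hd] at huv
      rw [huv]
  rw [Nat.card_Ioc] at h1
  have h2 : a / d ≤ b / d := Nat.div_le_div_right hab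
  have h3 : (((Ioc a b).filter (fun u => d ∣ u)).card : ℝ) ≤ ((b / d : ℕ) : ℝ) - (a / d : ℕ) := by
    rw [← Nat.cast_sub h2]
    exact_mod_cast h1
  have h4 : ((b / d : ℕ) : ℝ) ≤ (b : ℝ) / d := Nat.cast_div_le
  have h5 : (a : ℝ) / d < (a / d : ℕ) + 1 := by
    rw [div_lt_iff₀ (by exact_mod_cast hd)]
    have := Nat.lt_div_mul_add (a := a) (b := d) hd
    have h6 : (a : ℝ) < (a / d : ℕ) * d + d := by exact_mod_cast this
    linarith
  rw [sub_div]
  linarith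

/-- the average of `u / φ(u)` -/
lemma sumW (a b : ℕ) (hab : a ≤ b) :
    ∑ u ∈ Ioc a b, W u ≤ 3 * ((b : ℝ) - a) + (VW 0 b)⁻¹ := by
  classical
  set P := (Ioc 0 b).filter Nat.Prime with hP
  have hL : (0 : ℝ) ≤ (b : ℝ) - a := by
    have : (a : ℝ) ≤ b := by exact_mod_cast hab
    linarith
  have hfac : ∀ p : ℕ, p.Prime → (1 - 1 / (p : ℝ))⁻¹ = 1 + 1 / ((p : ℝ) - 1) := by
    intro p hp
    have h2 : (2 : ℝ) ≤ p := by exact_mod_cast hp.two_le
    have h3 : (p : ℝ) - 1 ≠ 0 := by linarith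
    have h4 : (p : ℝ) ≠ 0 := by linarith
    field_simp
    ring
  have hg0 : ∀ S ∈ P.powerset, 0 ≤ ∏ p ∈ S, 1 / ((p : ℝ) - 1) := by
    intro S hS
    refine prod_nonneg fun p hp => ?_
    have := (mem_filter.1 (mem_powerset.1 hS hp)).2
    have h2 : (2 : ℝ) ≤ p := by exact_mod_cast this.two_le
    have : 0 < (p : ℝ) - 1 := by linarith
    positivity
  have hW : ∀ u ∈ Ioc a b, W u =
      ∑ S ∈ P.powerset, if S ⊆ u.primeFactors then ∏ p ∈ S, 1 / ((p : ℝ) - 1) else 0 := by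
    intro u hu
    rw [mem_Ioc] at hu
    unfold W
    rw [prod_congr rfl fun p hp => hfac p (Nat.prime_of_mem_primeFactors hp), prod_one_add,
      ← sum_filter]
    refine sum_congr ?_ fun _ _ => rfl
    ext S
    rw [mem_powerset, mem_filter, mem_powerset]
    refine ⟨fun h => ⟨fun p hp => ?_, h⟩, fun h => h.2⟩
    have h1 := h hp
    rw [hP, mem_filter, mem_Ioc]
    exact ⟨⟨(Nat.prime_of_mem_primeFactors h1).pos,
      (Nat.le_of_mem_primeFactors h1).trans hu.2⟩, Nat.prime_of_mem_primeFactors h1⟩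
  rw [sum_congr rfl hW, sum_comm]
  have hS : ∀ S ∈ P.powerset,
      ∑ u ∈ Ioc a b, (if S ⊆ u.primeFactors then ∏ p ∈ S, 1 / ((p : ℝ) - 1) else 0) ≤
      ((b : ℝ) - a) * ∏ p ∈ S, 1 / ((p : ℝ) * ((p : ℝ) - 1)) + ∏ p ∈ S, 1 / ((p : ℝ) - 1) := by
    intro S hS
    have hprime : ∀ p ∈ S, p.Prime := fun p hp => (mem_filter.1 (mem_powerset.1 hS hp)).2
    have hd : 0 < ∏ p ∈ S, p := prod_pos fun p hp => (hprime p hp).pos
    have h1 : ∑ u ∈ Ioc a b, (if S ⊆ u.primeFactors then ∏ p ∈ S, 1 / ((p : ℝ) - 1) else 0) ≤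
        ∑ u ∈ (Ioc a b).filter (fun u => (∏ p ∈ S, p) ∣ u), ∏ p ∈ S, 1 / ((p : ℝ) - 1) := by
      rw [sum_filter]
      refine sum_le_sum fun u hu => ?_
      by_cases h : S ⊆ u.primeFactors
      · have : (∏ p ∈ S, p) ∣ u := by
          refine (prod_dvd_prod_of_subset _ _ _ h).trans (Nat.prod_primeFactors_dvd u)
        rw [if_pos h, if_pos this]
      · rw [if_neg h]
        split_ifs
        · exact hg0 S hS
        · exact le_rfl
    refine h1.trans ?_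
    rw [sum_const, nsmul_eq_mul]
    have h2 := card_mult a b _ hd hab
    refine (mul_le_mul_of_nonneg_right h2 (hg0 S hS)).trans (le_of_eq ?_)
    have h3 : ∏ p ∈ S, 1 / ((p : ℝ) * ((p : ℝ) - 1)) =
        1 / ((∏ p ∈ S, p : ℕ) : ℝ) * ∏ p ∈ S, 1 / ((p : ℝ) - 1) := by
      push_cast
      rw [one_div, ← prod_inv_distrib, ← prod_mul_distrib]
      refine prod_congr rfl fun p _ => ?_
      rw [one_div, one_div, mul_inv]
    rw [h3]
    ring
  refine (sum_le_sum hS).trans ?_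
  rw [sum_add_distrib, ← mul_sum, ← prod_one_add, ← prod_one_add]
  have e1 : ∏ p ∈ P, (1 + 1 / ((p : ℝ) - 1)) = (VW 0 b)⁻¹ := by
    unfold VW
    rw [← prod_inv_distrib]
    exact prod_congr rfl fun p hp => (hfac p (mem_filter.1 hp).2).symm
  have e2 : ∏ p ∈ P, (1 + 1 / ((p : ℝ) * ((p : ℝ) - 1))) ≤ 3 := by
    have h1 : ∀ n : ℕ, ∑ p ∈ Ioc 1 (n + 1), 1 / ((p : ℝ) * ((p : ℝ) - 1)) = 1 - 1 / ((n : ℝ) + 1) := by
      intro n
      induction n with
      | zero => simp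
      | succ n ih =>
        rw [sum_Ioc_succ_top (by omega), ih]
        have : (n : ℝ) + 1 ≠ 0 := by positivity
        have : (n : ℝ) + 1 + 1 ≠ 0 := by positivity
        push_cast
        rw [show ((n : ℝ) + 1 + 1 - 1) = n + 1 by ring]
        field_simp
        ring
    have h2 : ∑ p ∈ P, 1 / ((p : ℝ) * ((p : ℝ) - 1)) ≤ 1 := by
      calc ∑ p ∈ P, 1 / ((p : ℝ) * ((p : ℝ) - 1))
          ≤ ∑ p ∈ Ioc 1 (b + 1), 1 / ((p : ℝ) * ((p : ℝ) - 1)) := by
            refine sum_le_sum_of_subset_of_nonneg ?_ ?_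
            · intro p hp
              rw [hP, mem_filter, mem_Ioc] at hp
              rw [mem_Ioc]
              exact ⟨hp.2.one_lt, by omega⟩
            · intro p hp _
              rw [mem_Ioc] at hp
              have : (1 : ℝ) < p := by exact_mod_cast hp.1
              have : 0 < (p : ℝ) - 1 := by linarith
              positivity
        _ = 1 - 1 / ((b : ℝ) + 1) := h1 b
        _ ≤ 1 := by
            have : 0 ≤ 1 / ((b : ℝ) + 1) := by positivity
            linarith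
    calc ∏ p ∈ P, (1 + 1 / ((p : ℝ) * ((p : ℝ) - 1)))
        ≤ ∏ p ∈ P, Real.exp (1 / ((p : ℝ) * ((p : ℝ) - 1))) := by
          refine prod_le_prod (fun p hp => ?_) fun p _ => ?_
          · have := (mem_filter.1 hp).2
            have h2 : (2 : ℝ) ≤ p := by exact_mod_cast this.two_le
            have : 0 < (p : ℝ) - 1 := by linarith
            positivity
          · rw [add_comm]; exact Real.add_one_le_exp _
      _ = Real.exp (∑ p ∈ P, 1 / ((p : ℝ) * ((p : ℝ) - 1))) := (Real.exp_sum _ _).symm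
      _ ≤ Real.exp 1 := Real.exp_le_exp.2 h2
      _ ≤ 3 := by linarith [Real.exp_one_lt_d9]
  rw [e1]
  have := mul_le_mul_of_nonneg_left e2 hL
  linarith

lemma W_div {d : ℕ} (hd : 1 ≤ d) (x : ℝ) : x / d * W d = x / Nat.totient d := by
  rw [W_eq (by omega)]
  have h1 : (d : ℝ) ≠ 0 := by positivity
  have h2 : (Nat.totient d : ℝ) ≠ 0 := by
    have := Nat.totient_pos.2 hd
    positivity
  field_simp

/-- the number of multiples of `d` in an interval, in terms of the quotients -/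
lemma div_sub {a b d : ℕ} (hd : 0 < d) :
    ((b / d : ℕ) : ℝ) - (a / d : ℕ) ≤ ((b : ℝ) - a) / d + 1 := by
  have h4 : ((b / d : ℕ) : ℝ) ≤ (b : ℝ) / d := Nat.cast_div_le
  have h5 : (a : ℝ) / d < (a / d : ℕ) + 1 := by
    rw [div_lt_iff₀ (by exact_mod_cast hd)]
    have := Nat.lt_div_mul_add (a := a) (b := d) hd
    have h6 : (a : ℝ) < (a / d : ℕ) * d + d := by exact_mod_cast this
    linarith
  rw [sub_div]
  linarith

open Classical in
theorem t_U0 (h1 : S_FLC) (h2 : S_MER) : ∀ c : ℤ, c ≠ 0 → S_U0 c := by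
  intro c _
  obtain ⟨K, hK, hF⟩ := h1
  obtain ⟨C, hC, -, hM⟩ := h2
  refine ⟨35, by norm_num, 12 * (K * K + 1), ⌈(24 * C + 24) ^ 12⌉₊, ?_⟩
  intro B hB z d1 d2 X1 X2 I1 I2 hz hzk hd1 hd2 hd1k hd2k hX hBX hX2 hI hBI hI2
  -- the parameter
  have hBr : (24 * C + 24) ^ 12 ≤ (B : ℝ) := (Nat.le_ceil _).trans (by exact_mod_cast hB)
  have hB0 : (0 : ℝ) < B := lt_of_lt_of_le (by positivity) hBr
  set β : ℝ := (B : ℝ) ^ (1 / 12 : ℝ) with hβ
  have hβ0 : 0 < β := by positivity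
  have hβ12 : β ^ 12 = B := by
    rw [hβ, ← Real.rpow_natCast, ← Real.rpow_mul hB0.le]
    norm_num
  have hβC : 24 * C + 24 ≤ β := by
    rw [← pow_le_pow_iff_left₀ (by positivity) hβ0.le (show (12 : ℕ) ≠ 0 by norm_num), hβ12]
    exact hBr
  have hpow : ∀ x : ℝ, 0 ≤ x → x ^ 12 ≤ B → x ≤ β := by
    intro x hx h
    rw [← pow_le_pow_iff_left₀ hx hβ0.le (show (12 : ℕ) ≠ 0 by norm_num), hβ12]
    exact h
  have fz : (z : ℝ) ^ (K * K + 1) ≤ β := by
    refine hpow _ (by positivity) ?_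
    rw [← pow_mul, mul_comm]
    exact_mod_cast hzk
  have fd1 : (d1 : ℝ) ≤ β := by
    refine hpow _ (by positivity) ?_
    have : d1 ^ 12 ≤ d1 ^ (12 * (K * K + 1)) := Nat.pow_le_pow_right hd1 (by nlinarith)
    exact_mod_cast this.trans hd1k
  have fd2 : (d2 : ℝ) ≤ β := by
    refine hpow _ (by positivity) ?_
    have : d2 ^ 12 ≤ d2 ^ (12 * (K * K + 1)) := Nat.pow_le_pow_right hd2 (by nlinarith)
    exact_mod_cast this.trans hd2k
  have hcube : ∀ a b : ℕ, a ≤ b → B ≤ (b - a) ^ 4 → β ^ 3 ≤ (b : ℝ) - a := by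
    intro a b hab h
    have h3 : (B : ℝ) ≤ ((b : ℝ) - a) ^ 4 := by
      rw [← Nat.cast_sub hab]
      exact_mod_cast h
    have h4 : (0 : ℝ) ≤ (b : ℝ) - a := by
      have : (a : ℝ) ≤ b := by exact_mod_cast hab
      linarith
    rw [← pow_le_pow_iff_left₀ (by positivity) h4 (show (4 : ℕ) ≠ 0 by norm_num), ← pow_mul]
    norm_num
    rw [hβ12]
    exact h3
  have fX := hcube X1 X2 hX hBX
  have fI := hcube I1 I2 hI hBI
  have hβ1 : 1 ≤ β := by linarith
  have hβ2 : β ≤ β ^ 2 := by nlinarith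
  have hβ3 : β ^ 2 * C ≤ β ^ 3 := by nlinarith [pow_pos hβ0 2]
  have hβ3' : β ^ 2 * (24 * C) ≤ β ^ 3 := by nlinarith [pow_pos hβ0 2]
  have flog : Real.log B ≤ 12 * β := by
    rw [← hβ12, Real.log_pow]
    have := Real.log_le_sub_one_of_pos hβ0
    push_cast
    linarith
  have hd1r : (0 : ℝ) < d1 := by exact_mod_cast hd1
  have hd2r : (0 : ℝ) < d2 := by exact_mod_cast hd2
  have hLX : 0 ≤ (X2 : ℝ) - X1 := le_trans (by positivity) fX
  have hLI : 0 ≤ (I2 : ℝ) - I1 := le_trans (by positivity) fI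
  -- quotients
  have hqI : β ^ 2 ≤ ((I2 : ℝ) - I1) / d2 := by
    rw [le_div_iff₀ hd2r]
    calc β ^ 2 * d2 ≤ β ^ 2 * β := by gcongr
      _ = β ^ 3 := by ring
      _ ≤ _ := fI
  have hqX : β ^ 2 ≤ ((X2 : ℝ) - X1) / d1 := by
    rw [le_div_iff₀ hd1r]
    calc β ^ 2 * d1 ≤ β ^ 2 * β := by gcongr
      _ = β ^ 3 := by ring
      _ ≤ _ := fX
  have hβ21 : 1 ≤ β ^ 2 := by nlinarith
  -- the inner sum
  have hin : ∀ u ∈ (Ioc X1 X2).filter (fun u => d1 ∣ u),
      ∑ v ∈ (Ioc I1 I2).filter (fun v => d2 ∣ v), lz z ((u : ℤ) * v + c) ≤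
        5 * (((I2 : ℝ) - I1) / Nat.totient d2) * W u := by
    intro u hu
    rw [mem_filter, mem_Ioc] at hu
    have hu0 : u ≠ 0 := by omega
    have hm : u * d2 ≠ 0 := mul_ne_zero hu0 (by omega)
    have e1 : ∑ v ∈ (Ioc I1 I2).filter (fun v => d2 ∣ v), lz z ((u : ℤ) * v + c) =
        ((((Ioc I1 I2).filter (fun v => d2 ∣ v)).filter
          (fun v : ℕ => Rg 0 z ((u : ℤ) * v + c))).card : ℝ) * (VW 0 z)⁻¹ := by
      unfold lz
      rw [← sum_filter, sum_const, nsmul_eq_mul]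
    set S0 := ((Ioc I1 I2).filter (fun v => d2 ∣ v)).filter
          (fun v : ℕ => Rg 0 z ((u : ℤ) * v + c)) with hS0
    have e2 : (S0.image (fun v : ℕ => ((v / d2 : ℕ) : ℤ))).card = S0.card := by
      refine card_image_of_injOn ?_
      intro v hv v' hv' hvv
      rw [mem_coe, hS0, mem_filter, mem_filter] at hv hv'
      obtain ⟨k, rfl⟩ := hv.1.2
      obtain ⟨l, rfl⟩ := hv'.1.2
      dsimp only at hvv
      rw [Nat.mul_div_cancel_left k hd2, Nat.mul_div_cancel_left l hd2] at hvv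
      have : k = l := by exact_mod_cast hvv
      rw [this]
    have e3 := inner hF c z (u * d2) hz hm (I1 / d2) (I2 / d2) (Nat.div_le_div_right hI)
      (S0.image (fun v : ℕ => ((v / d2 : ℕ) : ℤ))) (by
        intro t ht
        rw [mem_image] at ht
        obtain ⟨v, hv, rfl⟩ := ht
        rw [hS0, mem_filter, mem_filter, mem_Ioc] at hv
        obtain ⟨⟨⟨h3, h4⟩, k, rfl⟩, h5⟩ := hv
        rw [Nat.mul_div_cancel_left k hd2]
        refine ⟨⟨?_, ?_⟩, ?_⟩
        · have : I1 / d2 < k := by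
            rw [Nat.div_lt_iff_lt_mul hd2, mul_comm]; exact h3
          exact_mod_cast this
        · have : k ≤ I2 / d2 := by
            rw [Nat.le_div_iff_mul_le hd2, mul_comm]; exact h4
          exact_mod_cast this
        · convert h5 using 2
          push_cast
          ring)
    rw [e2] at e3
    rw [e1]
    have hV := VW_pos 0 z
    have e4 : (VW 0 z)⁻¹ * (z : ℝ) ^ (K * K) ≤ ((I2 : ℝ) - I1) / d2 := by
      have h3 := (hM z hz).2
      have hz0 : (0 : ℝ) < z := by positivity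
      have h4 : Real.log z ≤ z := (Real.log_le_sub_one_of_pos hz0).trans (by linarith)
      calc (VW 0 z)⁻¹ * (z : ℝ) ^ (K * K) ≤ (C * z) * (z : ℝ) ^ (K * K) := by
            gcongr
            exact h3.trans (by gcongr)
        _ = C * (z : ℝ) ^ (K * K + 1) := by rw [pow_succ]; ring
        _ ≤ C * β := by gcongr
        _ ≤ β ^ 2 := by nlinarith
        _ ≤ _ := hqI
    have e5 : W (u * d2) ≤ W u * W d2 := W_mul hu0 (by omega)
    have e6 := div_sub (a := I1) (b := I2) hd2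
    have e7 : 0 ≤ ((I2 / d2 : ℕ) : ℝ) - (I1 / d2 : ℕ) := by
      have : ((I1 / d2 : ℕ) : ℝ) ≤ (I2 / d2 : ℕ) := by
        exact_mod_cast Nat.div_le_div_right hI
      linarith
    have hWu := one_le_W u
    have hWd := one_le_W d2
    have hWud : 1 ≤ W u * W d2 := by nlinarith
    calc (S0.card : ℝ) * (VW 0 z)⁻¹
        ≤ (2 * (((I2 / d2 : ℕ) : ℝ) - (I1 / d2 : ℕ)) * (VW 0 z * W (u * d2)) +
            (z : ℝ) ^ (K * K)) * (VW 0 z)⁻¹ := by gcongr
      _ = 2 * (((I2 / d2 : ℕ) : ℝ) - (I1 / d2 : ℕ)) * W (u * d2) +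
            (VW 0 z)⁻¹ * (z : ℝ) ^ (K * K) := by field_simp
      _ ≤ 2 * (((I2 / d2 : ℕ) : ℝ) - (I1 / d2 : ℕ)) * (W u * W d2) +
            ((I2 : ℝ) - I1) / d2 := by gcongr
      _ ≤ 2 * (2 * (((I2 : ℝ) - I1) / d2)) * (W u * W d2) +
            ((I2 : ℝ) - I1) / d2 * (W u * W d2) := by
          have h3 : ((I2 / d2 : ℕ) : ℝ) - (I1 / d2 : ℕ) ≤ 2 * (((I2 : ℝ) - I1) / d2) := by
            linarith
          have h4 : ((I2 : ℝ) - I1) / d2 ≤ ((I2 : ℝ) - I1) / d2 * (W u * W d2) :=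
            le_mul_of_one_le_right (by linarith) hWud
          gcongr
      _ = 5 * (((I2 : ℝ) - I1) / d2 * W d2) * W u := by ring
      _ = _ := by rw [W_div hd2]
  -- the outer sum
  have hout : ∑ u ∈ (Ioc X1 X2).filter (fun u => d1 ∣ u), W u ≤
      7 * (((X2 : ℝ) - X1) / Nat.totient d1) := by
    have e1 : ∑ u ∈ (Ioc X1 X2).filter (fun u => d1 ∣ u), W u =
        ∑ k ∈ Ioc (X1 / d1) (X2 / d1), W (d1 * k) := by
      refine sum_nbij' (fun u => u / d1) (fun k => d1 * k) ?_ ?_ ?_ ?_ ?_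
      · intro u hu
        rw [mem_filter, mem_Ioc] at hu
        obtain ⟨⟨h3, h4⟩, k, rfl⟩ := hu
        rw [mem_Ioc, Nat.mul_div_cancel_left k hd1]
        constructor
        · rw [Nat.div_lt_iff_lt_mul hd1, mul_comm]; exact h3
        · rw [Nat.le_div_iff_mul_le hd1, mul_comm]; exact h4
      · intro k hk
        rw [mem_Ioc, Nat.div_lt_iff_lt_mul hd1, Nat.le_div_iff_mul_le hd1] at hk
        rw [mem_filter, mem_Ioc]
        exact ⟨⟨by rw [mul_comm]; exact hk.1, by rw [mul_comm]; exact hk.2⟩, dvd_mul_right _ _⟩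
      · intro u hu
        rw [mem_filter] at hu
        exact Nat.mul_div_cancel' hu.2
      · intro k _
        exact Nat.mul_div_cancel_left k hd1
      · intro u hu
        rw [mem_filter] at hu
        rw [Nat.mul_div_cancel' hu.2]
    have e2 := sumW (X1 / d1) (X2 / d1) (Nat.div_le_div_right hX)
    have e3 := div_sub (a := X1) (b := X2) hd1
    have e4 : 2 ≤ X2 / d1 := by
      rw [Nat.le_div_iff_mul_le hd1]
      have h3 : (2 : ℝ) * d1 ≤ X2 := by
        have h4 : (0 : ℝ) ≤ X1 := Nat.cast_nonneg _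
        have h5 : 2 * β ≤ β ^ 3 := by nlinarith
        linarith
      exact_mod_cast h3
    have e5 : (VW 0 (X2 / d1))⁻¹ ≤ ((X2 : ℝ) - X1) / d1 := by
      have h3 := (hM _ e4).2
      have h4 : Real.log ((X2 / d1 : ℕ) : ℝ) ≤ 2 * Real.log B := by
        have h5 : ((X2 / d1 : ℕ) : ℝ) ≤ (B : ℝ) ^ 2 := by
          exact_mod_cast (Nat.div_le_self _ _).trans hX2
        have h6 : (0 : ℝ) < ((X2 / d1 : ℕ) : ℝ) := by
          have : 0 < X2 / d1 := by omega
          exact_mod_cast this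
        have := Real.log_le_log h6 h5
        rwa [Real.log_pow] at this
      calc (VW 0 (X2 / d1))⁻¹ ≤ C * (2 * (12 * β)) := by
            refine h3.trans ?_
            gcongr
            linarith
        _ ≤ β ^ 2 := by nlinarith
        _ ≤ _ := hqX
    have hW1 := one_le_W d1
    rw [e1]
    calc ∑ k ∈ Ioc (X1 / d1) (X2 / d1), W (d1 * k)
        ≤ ∑ k ∈ Ioc (X1 / d1) (X2 / d1), W d1 * W k := by
          refine sum_le_sum fun k hk => W_mul (by omega) ?_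
          rw [mem_Ioc] at hk
          exact ((Nat.zero_le _).trans_lt hk.1).ne'
      _ = W d1 * ∑ k ∈ Ioc (X1 / d1) (X2 / d1), W k := by rw [mul_sum]
      _ ≤ W d1 * (7 * (((X2 : ℝ) - X1) / d1)) := by
          gcongr
          linarith
      _ = 7 * (((X2 : ℝ) - X1) / d1 * W d1) := by ring
      _ = _ := by rw [W_div hd1]
  have hφ1 : (0 : ℝ) < Nat.totient d1 := by exact_mod_cast Nat.totient_pos.2 hd1
  have hφ2 : (0 : ℝ) < Nat.totient d2 := by exact_mod_cast Nat.totient_pos.2 hd2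
  calc ∑ u ∈ (Ioc X1 X2).filter (fun u => d1 ∣ u),
        ∑ v ∈ (Ioc I1 I2).filter (fun v => d2 ∣ v), lz z ((u : ℤ) * v + c)
      ≤ ∑ u ∈ (Ioc X1 X2).filter (fun u => d1 ∣ u),
        5 * (((I2 : ℝ) - I1) / Nat.totient d2) * W u := sum_le_sum hin
    _ = 5 * (((I2 : ℝ) - I1) / Nat.totient d2) *
        ∑ u ∈ (Ioc X1 X2).filter (fun u => d1 ∣ u), W u := by rw [mul_sum]
    _ ≤ 5 * (((I2 : ℝ) - I1) / Nat.totient d2) * (7 * (((X2 : ℝ) - X1) / Nat.totient d1)) := by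
        gcongr
    _ = _ := by field_simp; ring

end

end Pool.Agent.N383.QL
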